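import Mathlib

/-!
# Quadratic forms in `k`-th powers: for even `k` the Hasse principle fails in every large number of
variables, so `h(k) = ∞`
-/

set_option linter.all false

namespace Pool.Agent.Results.MP_c0a553_nt.EvenExponents

open Finset

/-- The value at `y` of the form `F(y) = Q(y_1^k, …, y_s^k)`, where `Q(x) = ∑ A_ij x_i x_j`. -/
def form {s : ℕ} (A : Matrix (Fin s) (Fin s) ℚ) (k : ℕ) (K : Type) [Field K] [CharZero K]
    (y : Fin s → K) : K :=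
  ∑ i, ∑ j, ((A i j : ℚ) : K) * (y i ^ k * y j ^ k)

/-- The `j`-th partial derivative of `F` at `y` (for `A` symmetric). -/
def dF {s : ℕ} (A : Matrix (Fin s) (Fin s) ℚ) (k : ℕ) (K : Type) [Field K] [CharZero K]
    (y : Fin s → K) (j : Fin s) : K :=
  2 * k * y j ^ (k - 1) * ∑ i, ((A i j : ℚ) : K) * y i ^ k

/-- `F` has a nontrivial zero over `K`. -/
def HasZero {s : ℕ} (A : Matrix (Fin s) (Fin s) ℚ) (k : ℕ) (K : Type) [Field K] [CharZero K] :
    Prop :=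
  ∃ y : Fin s → K, y ≠ 0 ∧ form A k K y = 0

/-- `F` satisfies the Hasse principle. -/
def Hasse {s : ℕ} (A : Matrix (Fin s) (Fin s) ℚ) (k : ℕ) : Prop :=
  HasZero A k ℝ → (∀ (p : ℕ) [Fact p.Prime], HasZero A k ℚ_[p]) → HasZero A k ℚ

/-- `h(k)`: the least `s₀` such that for every `s ≥ s₀` every `F(y) = Q(y^k)` with `Q` nonsingular
in `s` variables satisfies the Hasse principle; `⊤` if there is none. -/
noncomputable def h (k : ℕ) : ℕ∞ :=
  sInf {n : ℕ∞ | ∃ s₀ : ℕ, n = s₀ ∧ ∀ s ≥ s₀, ∀ A : Matrix (Fin s) (Fin s) ℚ,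
    A.IsSymm → A.det ≠ 0 → Hasse A k}

/-! ### sums of `d`-th powers over `ℚ_p` -/

/-- nontrivial zero of the sum of `m` `d`-th powers -/
def PZ (d m : ℕ) (K : Type) [Field K] : Prop := ∃ z : Fin m → K, z ≠ 0 ∧ ∑ i, z i ^ d = 0

lemma PZ.mono {d m n : ℕ} {K : Type} [Field K] (hd : 0 < d) (h : PZ d m K) (hmn : m ≤ n) :
    PZ d n K := by
  obtain ⟨z, hz, hs⟩ := h
  obtain ⟨r, rfl⟩ := Nat.exists_eq_add_of_le hmn
  refine ⟨Fin.append z 0, ?_, ?_⟩
  · intro h0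
    apply hz
    funext i
    have := congrFun h0 (Fin.castAdd r i)
    simpa using this
  · rw [Fin.sum_univ_add]
    simp [hs, hd.ne']

lemma pz_dvd (p : ℕ) [hp : Fact p.Prime] (d : ℕ) (hd : 0 < d) : PZ d (p ^ (2 * d + 1)) ℚ_[p] := by
  -- a root of `T^d = 1 - p^K`
  set K := 2 * d + 1 with hK
  have hroot : ∃ w : ℤ_[p], w ^ d = 1 - (p : ℤ_[p]) ^ K := by
    let g : Polynomial ℤ_[p] := Polynomial.X ^ d - Polynomial.C (1 - (p : ℤ_[p]) ^ K)
    have h1 : g.eval 1 = (p : ℤ_[p]) ^ K := by simp [g]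
    have h2 : g.derivative.eval 1 = (d : ℤ_[p]) := by
      simp only [g, Polynomial.derivative_sub, Polynomial.derivative_C, sub_zero,
        Polynomial.derivative_X_pow, Polynomial.eval_mul, Polynomial.eval_C, Polynomial.eval_pow,
        Polynomial.eval_X, one_pow, mul_one]
    have hnd : (p : ℝ) ^ (-(d : ℤ)) ≤ ‖(d : ℤ_[p])‖ := by
      have : ¬ ‖(d : ℤ_[p])‖ < (p : ℝ) ^ (-(d : ℤ)) := by
        intro hlt
        have h3 : ‖((d : ℤ) : ℤ_[p])‖ ≤ (p : ℝ) ^ (-(d : ℤ)) := by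
          push_cast; exact hlt.le
        rw [PadicInt.norm_int_le_pow_iff_dvd] at h3
        have h4 : p ^ d ∣ d := by exact_mod_cast h3
        have h5 := Nat.le_of_dvd hd h4
        have h6 : d < p ^ d := Nat.lt_pow_self hp.out.one_lt
        omega
      exact not_lt.mp this
    have hp1 : (1 : ℝ) < p := by exact_mod_cast hp.out.one_lt
    have hlt : ‖g.eval 1‖ < ‖g.derivative.eval 1‖ ^ 2 := by
      rw [h1, h2]
      have h7 : ‖(p : ℤ_[p]) ^ K‖ = (p : ℝ) ^ (-(K : ℤ)) := by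
        exact PadicInt.norm_p_pow K
      rw [h7]
      calc (p : ℝ) ^ (-(K : ℤ)) < (p : ℝ) ^ (-(2 * d : ℤ)) := by
            apply zpow_lt_zpow_right₀ hp1
            rw [hK]; push_cast; omega
        _ = ((p : ℝ) ^ (-(d : ℤ))) ^ 2 := by
            rw [← zpow_natCast, ← zpow_mul]; congr 1; push_cast; ring
        _ ≤ ‖(d : ℤ_[p])‖ ^ 2 := by
            apply pow_le_pow_left₀ _ hnd
            positivity
    obtain ⟨w, hw, -⟩ := hensels_lemma (p := p) (F := g) (a := 1) (by simpa using hlt)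
    refine ⟨w, ?_⟩
    have : w ^ d - (1 - (p : ℤ_[p]) ^ K) = 0 := by simpa [g] using hw
    exact sub_eq_zero.mp this
  obtain ⟨w, hw⟩ := hroot
  have hpos : 0 < p ^ K := pow_pos hp.out.pos K
  obtain ⟨N, hN⟩ : ∃ N, p ^ K = N + 1 := ⟨p ^ K - 1, by omega⟩
  rw [hN]
  have hw' : (w : ℚ_[p]) ^ d = 1 - (p : ℚ_[p]) ^ K := by
    have := congrArg (fun x : ℤ_[p] => (x : ℚ_[p])) hw
    simpa using this
  have hNp : (p : ℚ_[p]) ^ K = N + 1 := by exact_mod_cast hN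
  refine ⟨Fin.cons (w : ℚ_[p]) (fun _ => 1), ?_, ?_⟩
  · intro h0
    have hw0 : (w : ℚ_[p]) = 0 := by simpa using congrFun h0 0
    rw [hw0, zero_pow hd.ne'] at hw'
    -- 0 = 1 - p^K
    have h9 : (p : ℚ_[p]) ^ K = 1 := by
      have := hw'
      linear_combination this
    have h10 : p ^ K = 1 := by exact_mod_cast h9
    have h11 : K < p ^ K := Nat.lt_pow_self hp.out.one_lt
    omega
  · rw [Fin.sum_univ_succ]
    simp only [Fin.cons_zero, Fin.cons_succ, one_pow, Finset.sum_const, Finset.card_univ,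
      Fintype.card_fin, nsmul_eq_mul, mul_one]
    rw [hw', hNp]; ring

lemma pz_not_dvd (p : ℕ) [hp : Fact p.Prime] (d : ℕ) (hd : 0 < d) (hpd : ¬ p ∣ d) :
    PZ d (d + 1) ℚ_[p] := by
  classical
  -- Chevalley–Warning
  let f : MvPolynomial (Fin (d + 1)) (ZMod p) := ∑ i, MvPolynomial.X i ^ d
  have hdeg : f.totalDegree < Fintype.card (Fin (d + 1)) := by
    rw [Fintype.card_fin]
    have : f.totalDegree ≤ d := by
      apply MvPolynomial.totalDegree_finsetSum_le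
      intro i _
      rw [MvPolynomial.totalDegree_X_pow]
    omega
  have hcw := char_dvd_card_solutions p hdeg
  have h0 : ∃ x : Fin (d + 1) → ZMod p, x ≠ 0 ∧ MvPolynomial.eval x f = 0 := by
    by_contra hcon
    push Not at hcon
    have hcard : Fintype.card { x : Fin (d + 1) → ZMod p // MvPolynomial.eval x f = 0 } = 1 := by
      rw [Fintype.card_eq_one_iff]
      refine ⟨⟨0, by simp [f, hd.ne']⟩, ?_⟩
      rintro ⟨x, hx⟩
      by_cases hx0 : x = 0
      · subst hx0; rfl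
      · exact absurd hx (hcon x hx0)
    rw [hcard] at hcw
    exact hp.out.one_lt.ne' (Nat.dvd_one.mp hcw)
  obtain ⟨x, hx0, hxf⟩ := h0
  have hxs : ∑ i, x i ^ d = 0 := by simpa [f] using hxf
  obtain ⟨i₀, hi₀⟩ : ∃ i, x i ≠ 0 := by
    by_contra hcon
    push Not at hcon
    exact hx0 (funext hcon)
  -- lift
  have hsurj : ∀ a : ZMod p, ∃ b : ℤ_[p], PadicInt.toZMod b = a := by
    intro a
    refine ⟨(a.val : ℤ_[p]), ?_⟩
    rw [map_natCast, ZMod.natCast_val, ZMod.cast_id]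
  choose lift hlift using hsurj
  let b : Fin (d + 1) → ℤ_[p] := fun i => lift (x i)
  have hb : ∀ i, PadicInt.toZMod (b i) = x i := fun i => hlift (x i)
  let c : ℤ_[p] := ∑ i ∈ univ.erase i₀, b i ^ d
  let g : Polynomial ℤ_[p] := Polynomial.X ^ d + Polynomial.C c
  have hg1 : g.eval (b i₀) = b i₀ ^ d + c := by simp [g]
  have hg2 : g.derivative.eval (b i₀) = d * b i₀ ^ (d - 1) := by
    simp only [g, Polynomial.derivative_add, Polynomial.derivative_C, add_zero,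
      Polynomial.derivative_X_pow, Polynomial.eval_mul, Polynomial.eval_C, Polynomial.eval_pow,
      Polynomial.eval_X]
  have hnorm0 : ∀ a : ℤ_[p], PadicInt.toZMod a = 0 → ‖a‖ < 1 := by
    intro a ha
    have : a ∈ RingHom.ker (PadicInt.toZMod (p := p)) := ha
    rw [PadicInt.ker_toZMod] at this
    exact PadicInt.mem_nonunits.mp ((IsLocalRing.mem_maximalIdeal a).mp this)
  have hnorm1 : ∀ a : ℤ_[p], PadicInt.toZMod a ≠ 0 → ‖a‖ = 1 := by
    intro a ha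
    by_contra hne
    have hlt : ‖a‖ < 1 := lt_of_le_of_ne (PadicInt.norm_le_one a) hne
    apply ha
    have : a ∈ RingHom.ker (PadicInt.toZMod (p := p)) := by
      rw [PadicInt.ker_toZMod]
      exact (IsLocalRing.mem_maximalIdeal a).mpr (PadicInt.mem_nonunits.mpr hlt)
    exact this
  have h1 : ‖g.eval (b i₀)‖ < 1 := by
    apply hnorm0
    rw [hg1]
    have : b i₀ ^ d + c = ∑ i, b i ^ d := by
      rw [← Finset.add_sum_erase univ _ (mem_univ i₀)]
    rw [this, map_sum]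
    simp only [map_pow, hb]
    exact hxs
  have h2 : ‖g.derivative.eval (b i₀)‖ = 1 := by
    apply hnorm1
    rw [hg2, map_mul, map_pow, map_natCast, hb]
    apply mul_ne_zero
    · rw [Ne, ZMod.natCast_eq_zero_iff]
      exact hpd
    · exact pow_ne_zero _ hi₀
  obtain ⟨w, hw, hwd, -, -⟩ := hensels_lemma (p := p) (F := g) (a := b i₀)
    (by
      have : ‖g.eval (b i₀)‖ < ‖g.derivative.eval (b i₀)‖ ^ 2 := by rw [h2]; simpa using h1
      simpa using this)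
  have hw1 : w ^ d + c = 0 := by simpa [g] using hw
  have hw0 : w ≠ 0 := by
    intro hw0
    have h3 : ‖w - b i₀‖ < 1 := by
      have := hwd
      calc ‖w - b i₀‖ < ‖g.derivative.eval (b i₀)‖ := by simpa using this
        _ = 1 := h2
    rw [hw0, zero_sub, norm_neg] at h3
    have h4 : ‖b i₀‖ = 1 := hnorm1 _ (by rw [hb]; exact hi₀)
    linarith
  let φ : ℤ_[p] →+* ℚ_[p] := algebraMap ℤ_[p] ℚ_[p]
  have hφ : Function.Injective φ := FaithfulSMul.algebraMap_injective ℤ_[p] ℚ_[p]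
  let b' : Fin (d + 1) → ℤ_[p] := Function.update b i₀ w
  have hb'1 : b' i₀ = w := Function.update_self _ _ _
  have hb'2 : ∑ i, b' i ^ d = 0 := by
    rw [← Finset.add_sum_erase univ _ (mem_univ i₀), hb'1]
    have h5 : ∑ i ∈ univ.erase i₀, b' i ^ d = c := by
      apply Finset.sum_congr rfl
      intro i hi
      simp only [b']
      rw [Function.update_of_ne (Finset.ne_of_mem_erase hi)]
    rw [h5, hw1]
  refine ⟨fun i => φ (b' i), ?_, ?_⟩
  · intro hz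
    have h6 : φ (b' i₀) = 0 := congrFun hz i₀
    rw [hb'1] at h6
    exact hw0 (hφ (by rw [h6, map_zero]))
  · have := congrArg φ hb'2
    rw [map_sum, map_zero] at this
    simpa only [map_pow] using this

lemma pz_all (p : ℕ) [hp : Fact p.Prime] (d : ℕ) (hd : 0 < d) {m : ℕ}
    (hm : d ^ (2 * d + 1) + d + 1 ≤ m) : PZ d m ℚ_[p] := by
  by_cases hpd : p ∣ d
  · apply (pz_dvd p d hd).mono hd
    have := Nat.pow_le_pow_left (Nat.le_of_dvd hd hpd) (2 * d + 1)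
    omega
  · exact (pz_not_dvd p d hd hpd).mono hd (by omega)

/-! ### the matrices -/

/-- the block `(x₀ - 2x₁)² + 2x₀x₂ + x₂²` -/
def B : Matrix (Fin 3) (Fin 3) ℚ := !![1, -2, 1; -2, 4, 0; 1, 0, 1]

/-- `(x₀ - 2x₁)² + 2x₀x₂ + x₂² + x₃² + ⋯` -/
def mat (m : ℕ) : Matrix (Fin (3 + m)) (Fin (3 + m)) ℚ :=
  (Matrix.fromBlocks B 0 0 (1 : Matrix (Fin m) (Fin m) ℚ)).submatrix finSumFinEquiv.symm
    finSumFinEquiv.symm

lemma B_symm : B.IsSymm := by
  ext i j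
  fin_cases i <;> fin_cases j <;> simp [B]

lemma B_det : B.det = -4 := by
  simp [B, Matrix.det_fin_three]
  norm_num

lemma mat_symm (m : ℕ) : (mat m).IsSymm := by
  unfold mat
  apply Matrix.IsSymm.submatrix
  exact Matrix.IsSymm.fromBlocks B_symm (by simp) Matrix.isSymm_one

lemma mat_det (m : ℕ) : (mat m).det ≠ 0 := by
  unfold mat
  rw [Matrix.det_submatrix_equiv_self, Matrix.det_fromBlocks_zero₂₁, B_det]
  simp

lemma mat_ll (m : ℕ) (i j : Fin 3) : mat m (Fin.castAdd m i) (Fin.castAdd m j) = B i j := by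
  simp [mat]

lemma mat_lr (m : ℕ) (i : Fin 3) (j : Fin m) : mat m (Fin.castAdd m i) (Fin.natAdd 3 j) = 0 := by
  simp [mat]

lemma mat_rl (m : ℕ) (i : Fin m) (j : Fin 3) : mat m (Fin.natAdd 3 i) (Fin.castAdd m j) = 0 := by
  simp [mat]

lemma mat_rr (m : ℕ) (i j : Fin m) :
    mat m (Fin.natAdd 3 i) (Fin.natAdd 3 j) = if i = j then 1 else 0 := by
  simp [mat, Matrix.one_apply]

lemma form_mat (m k : ℕ) (K : Type) [Field K] [CharZero K] (y : Fin (3 + m) → K) :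
    form (mat m) k K y = (y (Fin.castAdd m 0) ^ k - 2 * y (Fin.castAdd m 1) ^ k) ^ 2
      + 2 * y (Fin.castAdd m 0) ^ k * y (Fin.castAdd m 2) ^ k + (y (Fin.castAdd m 2) ^ k) ^ 2
      + ∑ i : Fin m, (y (Fin.natAdd 3 i) ^ k) ^ 2 := by
  unfold form
  rw [Fin.sum_univ_add]
  have h1 : ∀ i : Fin m, ∑ j, ((mat m (Fin.natAdd 3 i) j : ℚ) : K)
      * (y (Fin.natAdd 3 i) ^ k * y j ^ k) = (y (Fin.natAdd 3 i) ^ k) ^ 2 := by
    intro i
    rw [Fin.sum_univ_add]
    simp only [mat_rl, mat_rr, Rat.cast_zero, zero_mul, Finset.sum_const_zero, zero_add]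
    rw [Finset.sum_eq_single i]
    · simp; ring
    · intro b _ hb
      rw [if_neg (Ne.symm hb)]; simp
    · simp
  have h2 : ∀ i : Fin 3, ∑ j, ((mat m (Fin.castAdd m i) j : ℚ) : K)
      * (y (Fin.castAdd m i) ^ k * y j ^ k) = ∑ j : Fin 3, ((B i j : ℚ) : K)
      * (y (Fin.castAdd m i) ^ k * y (Fin.castAdd m j) ^ k) := by
    intro i
    rw [Fin.sum_univ_add]
    simp only [mat_ll, mat_lr, Rat.cast_zero, zero_mul, Finset.sum_const_zero, add_zero]
  simp only [h1, h2]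
  congr 1
  simp only [Fin.sum_univ_three, B]
  simp
  ring

lemma no_rat (k : ℕ) (hk : 0 < k) (hev : Even k) (a b : ℚ) (h : a ^ k = 2 * b ^ k) :
    a = 0 ∧ b = 0 := by
  have hk2 : 2 ≤ k := by
    rcases hev with ⟨t, rfl⟩; omega
  by_cases hb : b = 0
  · subst hb
    rw [zero_pow hk.ne', mul_zero] at h
    exact ⟨pow_eq_zero_iff hk.ne' |>.mp h, rfl⟩
  · exfalso
    have ha : a ≠ 0 := by
      rintro rfl
      rw [zero_pow hk.ne'] at h
      have := pow_ne_zero k hb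
      apply this
      linarith
    have h1 := congrArg (padicValRat 2) h
    rw [padicValRat.pow, padicValRat.mul (by norm_num) (pow_ne_zero k hb), padicValRat.pow] at h1
    have h2 : padicValRat 2 (2 : ℚ) = 1 := by
      have := padicValRat.self (p := 2) (by norm_num)
      simpa using this
    rw [h2] at h1
    have h3 : (k : ℤ) ∣ 1 := ⟨padicValRat 2 a - padicValRat 2 b, by linarith⟩
    have h4 : (k : ℤ) ≤ 1 := Int.le_of_dvd one_pos h3
    omega

lemma real_zero (m k : ℕ) (hk : 0 < k) : HasZero (mat m) k ℝ := by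
  refine ⟨Fin.append ![(2 : ℝ) ^ ((1 : ℝ) / k), 1, 0] 0, ?_, ?_⟩
  · intro h
    have := congrFun h (Fin.castAdd m 1)
    simp at this
  · rw [form_mat]
    have h2 : ((2 : ℝ) ^ ((1 : ℝ) / k)) ^ k = 2 := by
      rw [← Real.rpow_natCast, ← Real.rpow_mul (by norm_num)]
      rw [one_div_mul_cancel (by exact_mod_cast hk.ne')]
      simp
    simp only [Fin.append_left, Fin.append_right]
    simp [hk.ne']
    have h3 : ((2 : ℝ) ^ ((k : ℝ)⁻¹)) ^ k = 2 := by
      rw [one_div] at h2; exact h2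
    rw [h3]; norm_num

lemma nonneg (m k : ℕ) (hev : Even k) (y : Fin (3 + m) → ℝ) : 0 ≤ form (mat m) k ℝ y := by
  rw [form_mat]
  have h0 : ∀ x : ℝ, 0 ≤ x ^ k := fun x => hev.pow_nonneg x
  have h1 := mul_nonneg (mul_nonneg (by norm_num : (0 : ℝ) ≤ 2) (h0 (y (Fin.castAdd m 0))))
    (h0 (y (Fin.castAdd m 2)))
  have h2 : 0 ≤ ∑ i : Fin m, (y (Fin.natAdd 3 i) ^ k) ^ 2 :=
    Finset.sum_nonneg (fun i _ => sq_nonneg _)
  positivity

lemma not_rat (m k : ℕ) (hk : 0 < k) (hev : Even k) : ¬ HasZero (mat m) k ℚ := by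
  rintro ⟨y, hy, hf⟩
  rw [form_mat] at hf
  have h0 : ∀ x : ℚ, 0 ≤ x ^ k := fun x => hev.pow_nonneg x
  have h1 := mul_nonneg (mul_nonneg (by norm_num : (0 : ℚ) ≤ 2) (h0 (y (Fin.castAdd m 0))))
    (h0 (y (Fin.castAdd m 2)))
  have h2 : 0 ≤ ∑ i : Fin m, (y (Fin.natAdd 3 i) ^ k) ^ 2 :=
    Finset.sum_nonneg (fun i _ => sq_nonneg _)
  have h3 := sq_nonneg (y (Fin.castAdd m 0) ^ k - 2 * y (Fin.castAdd m 1) ^ k)
  have h4 := sq_nonneg (y (Fin.castAdd m 2) ^ k)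
  have e1 : (y (Fin.castAdd m 0) ^ k - 2 * y (Fin.castAdd m 1) ^ k) ^ 2 = 0 := by linarith
  have e2 : (y (Fin.castAdd m 2) ^ k) ^ 2 = 0 := by linarith
  have e3 : ∑ i : Fin m, (y (Fin.natAdd 3 i) ^ k) ^ 2 = 0 := by linarith
  have e1' : y (Fin.castAdd m 0) ^ k = 2 * y (Fin.castAdd m 1) ^ k := by
    have := pow_eq_zero_iff (two_ne_zero) |>.mp e1
    linarith
  obtain ⟨ha, hb⟩ := no_rat k hk hev _ _ e1'
  have hc : y (Fin.castAdd m 2) = 0 := by
    have := pow_eq_zero_iff (two_ne_zero) |>.mp e2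
    exact pow_eq_zero_iff hk.ne' |>.mp this
  have hd : ∀ i : Fin m, y (Fin.natAdd 3 i) = 0 := by
    intro i
    have := (Finset.sum_eq_zero_iff_of_nonneg (fun i _ => sq_nonneg _)).mp e3 i (mem_univ i)
    have := pow_eq_zero_iff (two_ne_zero) |>.mp this
    exact pow_eq_zero_iff hk.ne' |>.mp this
  apply hy
  funext i
  refine Fin.addCases ?_ ?_ i
  · intro j
    fin_cases j
    · exact ha
    · exact hb
    · exact hc
  · intro j
    exact hd j

lemma padic_zero (m k : ℕ) (hk : 0 < k)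
    (hm : (2 * k) ^ (2 * (2 * k) + 1) + 2 * k + 1 ≤ m) (p : ℕ) [hp : Fact p.Prime] :
    ∃ y : Fin (3 + m) → ℚ_[p], y ≠ 0 ∧ form (mat m) k ℚ_[p] y = 0 ∧
      ∃ j, dF (mat m) k ℚ_[p] y j ≠ 0 := by
  obtain ⟨z, hz, hs⟩ := pz_all p (2 * k) (by omega) hm
  obtain ⟨i₀, hi₀⟩ : ∃ i, z i ≠ 0 := by
    by_contra hcon
    push Not at hcon
    exact hz (funext hcon)
  refine ⟨Fin.append 0 z, ?_, ?_, Fin.natAdd 3 i₀, ?_⟩
  · intro h
    have := congrFun h (Fin.natAdd 3 i₀)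
    simp only [Fin.append_right, Pi.zero_apply] at this
    exact hi₀ this
  · rw [form_mat]
    simp only [Fin.append_left, Fin.append_right, Pi.zero_apply]
    rw [zero_pow hk.ne']
    have : ∑ i : Fin m, (z i ^ k) ^ 2 = ∑ i, z i ^ (2 * k) := by
      apply Finset.sum_congr rfl
      intro i _
      rw [← pow_mul, mul_comm]
    rw [this, hs]
    ring
  · unfold dF
    rw [Fin.sum_univ_add]
    simp only [Fin.append_left, Fin.append_right, Pi.zero_apply]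
    have h1 : ∑ i : Fin 3, ((mat m (Fin.castAdd m i) (Fin.natAdd 3 i₀) : ℚ) : ℚ_[p])
        * (0 : ℚ_[p]) ^ k = 0 := by
      apply Finset.sum_eq_zero
      intro i _
      rw [zero_pow hk.ne', mul_zero]
    have h2 : ∑ i : Fin m, ((mat m (Fin.natAdd 3 i) (Fin.natAdd 3 i₀) : ℚ) : ℚ_[p])
        * z i ^ k = z i₀ ^ k := by
      simp only [mat_rr]
      rw [Finset.sum_eq_single i₀]
      · simp
      · intro b _ hb
        rw [if_neg hb]; simp
      · simp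
    rw [h1, h2, zero_add]
    refine mul_ne_zero (mul_ne_zero (mul_ne_zero two_ne_zero ?_) (pow_ne_zero _ hi₀))
      (pow_ne_zero _ hi₀)
    exact_mod_cast hk.ne'

/-! ### the results -/

lemma main_even (k : ℕ) (hk : 0 < k) (hev : Even k) : ∃ s₁ : ℕ, ∀ s ≥ s₁,
    ∃ A : Matrix (Fin s) (Fin s) ℚ, A.IsSymm ∧ A.det ≠ 0 ∧
      (∀ y : Fin s → ℝ, 0 ≤ form A k ℝ y) ∧ HasZero A k ℝ ∧
      (∀ (p : ℕ) [Fact p.Prime], ∃ y : Fin s → ℚ_[p], y ≠ 0 ∧ form A k ℚ_[p] y = 0 ∧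
        ∃ j, dF A k ℚ_[p] y j ≠ 0) ∧
      ¬ HasZero A k ℚ := by
  refine ⟨3 + ((2 * k) ^ (2 * (2 * k) + 1) + 2 * k + 1), ?_⟩
  intro s hs
  obtain ⟨m, rfl⟩ := Nat.exists_eq_add_of_le (le_trans (Nat.le_add_right 3 _) hs)
  exact ⟨mat m, mat_symm m, mat_det m, nonneg m k hev, real_zero m k hk,
    fun p _ => padic_zero m k hk (by omega) p, not_rat m k hk hev⟩

lemma h_top (k : ℕ) (hk : 0 < k) (hev : Even k) : h k = ⊤ := by
  unfold h
  have : {n : ℕ∞ | ∃ s₀ : ℕ, n = s₀ ∧ ∀ s ≥ s₀, ∀ A : Matrix (Fin s) (Fin s) ℚ,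
    A.IsSymm → A.det ≠ 0 → Hasse A k} = ∅ := by
    rw [Set.eq_empty_iff_forall_notMem]
    rintro n ⟨s₀, -, hs⟩
    obtain ⟨s₁, h1⟩ := main_even k hk hev
    obtain ⟨A, hA, hdet, -, hr, hp, hq⟩ := h1 (max s₀ s₁) (le_max_right _ _)
    apply hq
    apply hs (max s₀ s₁) (le_max_left _ _) A hA hdet hr
    intro p hp'
    obtain ⟨y, hy, hf, -⟩ := hp p
    exact ⟨y, hy, hf⟩
  rw [this, sInf_empty]

lemma log_top (k : ℕ) (hk : 0 < k) (hev : Even k) :
    ENNReal.log ((h k : ℕ∞) : ENNReal) = ⊤ := by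
  rw [h_top k hk hev]
  simp

theorem result :
    (∀ k : ℕ, 0 < k → Even k → ∃ s₁ : ℕ, ∀ s ≥ s₁,
      ∃ A : Matrix (Fin s) (Fin s) ℚ, A.IsSymm ∧ A.det ≠ 0 ∧
        (∀ y : Fin s → ℝ, 0 ≤ form A k ℝ y) ∧ HasZero A k ℝ ∧
        (∀ (p : ℕ) [Fact p.Prime], ∃ y : Fin s → ℚ_[p], y ≠ 0 ∧ form A k ℚ_[p] y = 0 ∧
          ∃ j, dF A k ℚ_[p] y j ≠ 0) ∧
        ¬ HasZero A k ℚ) ∧
    (∀ k : ℕ, 0 < k → Even k → h k = ⊤) ∧
    (∀ (c : ℝ) (k : ℕ), 0 < k → Even k → ((c * k : ℝ) : EReal) ≤ ENNReal.log (h k)) ∧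
    ¬ (∀ ε : ℝ, 0 < ε → ∃ K : ℕ, ∀ k ≥ K, ENNReal.log (h k) ≤ ((ε * k : ℝ) : EReal)) := by
  refine ⟨main_even, h_top, fun c k hk hev => ?_, ?_⟩
  · rw [log_top k hk hev]; exact le_top
  · intro hcon
    obtain ⟨K, hK⟩ := hcon 1 one_pos
    have h1 := hK (2 * (K + 1)) (by omega)
    rw [log_top (2 * (K + 1)) (by omega) (even_two_mul _)] at h1
    exact absurd h1 (not_le.mpr (EReal.coe_lt_top _))

end Pool.Agent.Results.MP_c0a553_nt.EvenExponents
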